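import Pool.Agent.helper76.UFG.Spec

set_option autoImplicit false

namespace Pool.Agent.UFG

open Finset NumberField nonZeroDivisors Pool.Agent.UF

theorem FCT : FCT_stmt := by
  intro m a R _ _ z hz
  have : NeZero (2 ^ (m + 1)) := ⟨by positivity⟩
  have h1 : Polynomial.cyclotomic (2 ^ (m + 1)) R = Polynomial.X ^ 2 ^ m + 1 := by
    rw [Polynomial.cyclotomic_prime_pow_eq_geom_sum Nat.prime_two]
    rw [Finset.sum_range_succ, Finset.sum_range_one]
    rw [pow_zero, pow_one, add_comm]
  have h2 := Polynomial.cyclotomic_eq_prod_X_sub_primitiveRoots hz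
  rw [h1] at h2
  have h3 := congrArg (Polynomial.eval (a : R)) h2
  rw [Polynomial.eval_prod] at h3
  simp only [Polynomial.eval_add, Polynomial.eval_pow, Polynomial.eval_X, Polynomial.eval_one,
    Polynomial.eval_sub, Polynomial.eval_C] at h3
  rw [h3]
  have hodd : ∀ t : ℕ, Odd t ↔ t.Coprime (2 ^ (m + 1)) := by
    intro t
    rw [Nat.coprime_pow_right_iff (Nat.succ_pos m), Nat.coprime_two_right]
  refine Finset.prod_bij (fun t _ => z ^ t) ?_ ?_ ?_ ?_
  · intro t ht
    rw [mem_filter, mem_range] at ht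
    rw [mem_primitiveRoots (by positivity)]
    exact hz.pow_of_coprime t ((hodd t).mp ht.2)
  · intro t ht s hs hts
    rw [mem_filter, mem_range] at ht hs
    exact hz.pow_inj ht.1 hs.1 hts
  · intro w hw
    rw [mem_primitiveRoots (by positivity)] at hw
    obtain ⟨t, ht1, ht2, ht3⟩ := hz.isPrimitiveRoot_iff.mp hw
    exact ⟨t, mem_filter.mpr ⟨mem_range.mpr ht1, (hodd t).mpr ht2⟩, ht3⟩
  · intro t _
    rfl

end Pool.Agent.UFG
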