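import Pool.Agent.helper76.UFG.Spec

set_option autoImplicit false

namespace Pool.Agent.UFG

open Finset NumberField nonZeroDivisors Pool.Agent.UF

theorem PRC (hBAS : BAS_stmt) (hQUK : QUK_stmt) : PRC_stmt := by
  intro m K _ _ _ z hz hp
  have hC := hBAS m K z hz
  have hff : ff 2 z 1 = 2 - z := by simp [ff]
  have hq := hQUK (2 ^ m) 1 2 (𝓞 K) z (Nat.one_le_two_pow) le_rfl (by rw [one_mul]; exact hC)
  rw [hff] at hq
  obtain ⟨hq1, hq2⟩ := hq
  have hF : (2 ^ 2 ^ m + 1 : ℕ) = fer m := rfl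
  rw [hF] at hq1 hq2
  have hF1 : 1 < fer m := by
    unfold fer
    have : 0 < 2 ^ 2 ^ m := by positivity
    omega
  by_contra hnp
  have hmin : (fer m).minFac ∣ fer m := Nat.minFac_dvd _
  obtain ⟨k, hk⟩ := hmin
  have hp2 := Nat.minFac_prime (show fer m ≠ 1 by omega)
  have hlt : (fer m).minFac < fer m := by
    refine lt_of_le_of_ne (Nat.minFac_le (by omega)) ?_
    intro h
    rw [h] at hp2
    exact hnp hp2
  have hk0 : 0 < k := by
    rcases Nat.eq_zero_or_pos k with h | h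
    · rw [h, mul_zero] at hk
      omega
    · exact h
  have hklt : k < fer m := by
    have h2 := hp2.two_le
    nlinarith
  have hdvd : (2 - z) ∣ (((fer m).minFac : ℕ) : 𝓞 K) * ((k : ℕ) : 𝓞 K) := by
    have h3 : (((fer m).minFac : ℕ) : 𝓞 K) * ((k : ℕ) : 𝓞 K) = ((fer m : ℕ) : 𝓞 K) := by
      rw [← Nat.cast_mul, ← hk]
    rw [h3]
    exact hq2
  rcases hp.dvd_or_dvd hdvd with h | h
  · have h4 := hq1 (((fer m).minFac : ℕ) : ℤ) (by simpa using h)
    have h5 := Int.le_of_dvd (by exact_mod_cast hp2.pos) h4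
    omega
  · have h4 := hq1 ((k : ℕ) : ℤ) (by simpa using h)
    have h5 := Int.le_of_dvd (by exact_mod_cast hk0) h4
    omega

end Pool.Agent.UFG
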