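import Pool.Agent.helper76.UFG.Spec

set_option autoImplicit false

namespace Pool.Agent.UFG

open Finset NumberField nonZeroDivisors Pool.Agent.UF

theorem PRI (hBAS : BAS_stmt) (hQUK : QUK_stmt) (hQUO : QUO_stmt) : PRI_stmt := by
  intro m K _ _ _ z hz hp
  have hC := hBAS m K z hz
  have hff : ff 2 z 1 = 2 - z := by simp [ff]
  have hq := hQUK (2 ^ m) 1 2 (𝓞 K) z (Nat.one_le_two_pow) le_rfl (by rw [one_mul]; exact hC)
  rw [hff] at hq
  obtain ⟨hq1, hq2⟩ := hq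
  have hF : (2 ^ 2 ^ m + 1 : ℕ) = fer m := rfl
  rw [hF] at hq1 hq2
  have hF0 : fer m ≠ 0 := hp.ne_zero
  refine ⟨?_, ?_, ?_⟩
  · intro h0
    rw [h0, zero_dvd_iff] at hq2
    exact hF0 (by exact_mod_cast hq2)
  · intro hu
    have h1 := hq1 1 (hu.dvd)
    have h2 : (fer m : ℤ) ≤ 1 := Int.le_of_dvd one_pos h1
    have h3 := hp.two_le
    omega
  · intro u v huv
    obtain ⟨n1, h1⟩ := hQUO (2 ^ m) 2 (𝓞 K) z hC u
    obtain ⟨n2, h2⟩ := hQUO (2 ^ m) 2 (𝓞 K) z hC v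
    rw [hff] at h1 h2
    have h3 : (2 - z) ∣ ((n1 * n2 : ℤ) : 𝓞 K) := by
      have h4 : ((n1 * n2 : ℤ) : 𝓞 K) = u * v - (u * (v - (n2 : 𝓞 K)) + (n2 : 𝓞 K) * (u - (n1 : 𝓞 K))) := by
        push_cast
        ring
      rw [h4]
      exact dvd_sub huv (dvd_add (h2.mul_left _) (h1.mul_left _))
    have h5 := hq1 _ h3
    have h6 : Prime ((fer m : ℕ) : ℤ) := Nat.prime_iff_prime_int.mp hp
    have key : ∀ (w : 𝓞 K) (n : ℤ), (2 - z) ∣ w - (n : 𝓞 K) → ((fer m : ℕ) : ℤ) ∣ n → (2 - z) ∣ w := by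
      intro w n hw hn
      obtain ⟨c, rfl⟩ := hn
      have h7 : w = (w - ((((fer m : ℕ) : ℤ) * c : ℤ) : 𝓞 K)) + ((fer m : ℕ) : 𝓞 K) * (c : 𝓞 K) := by
        push_cast
        ring
      rw [h7]
      exact dvd_add hw (hq2.mul_right _)
    rcases h6.dvd_or_dvd h5 with h | h
    · exact Or.inl (key u n1 h1 h)
    · exact Or.inr (key v n2 h2 h)

end Pool.Agent.UFG
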