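import Pool.Agent.helper76.UFG.Spec

set_option autoImplicit false

namespace Pool.Agent.UFG

open Finset NumberField nonZeroDivisors Pool.Agent.UF

theorem TF2 (hPRC : PRC_stmt) (hFCT : FCT_stmt) (hCP1 : CP1_stmt) : TF2_stmt := by
  intro m n K L _ _ _ _ _ _ _ hn hmn P hP hF hprin
  have : NeZero (2 ^ (m + 1)) := ⟨by positivity⟩
  have hz := (IsCyclotomicExtension.zeta_spec (2 ^ (m + 1)) ℚ K).toInteger_isPrimitiveRoot
  have hprod := hFCT m 2 (𝓞 K) _ hz
  have hmem : (∏ t ∈ (range (2 ^ (m + 1))).filter (fun t => Odd t),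
      (((2 : ℕ) : 𝓞 K) - (IsCyclotomicExtension.zeta_spec (2 ^ (m + 1)) ℚ K).toInteger ^ t)) ∈ P := by
    rw [hprod]
    have h1 : (((2 : ℕ) : 𝓞 K)) ^ 2 ^ m + 1 = ((fer m : ℕ) : 𝓞 K) := by
      unfold fer
      push_cast
      rfl
    rw [h1]
    exact hF
  rw [Ideal.IsPrime.prod_mem_iff] at hmem
  obtain ⟨t, ht, htP⟩ := hmem
  rw [mem_filter] at ht
  have hz' : IsPrimitiveRoot ((IsCyclotomicExtension.zeta_spec (2 ^ (m + 1)) ℚ K).toInteger ^ t)
      (2 ^ (m + 1)) := by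
    refine hz.pow_of_coprime t ?_
    rw [Nat.coprime_pow_right_iff (Nat.succ_pos m), Nat.coprime_two_right]
    exact ht.2
  rw [Nat.cast_ofNat] at htP
  have hdvd : P ∣ Ideal.span {2 - (IsCyclotomicExtension.zeta_spec (2 ^ (m + 1)) ℚ K).toInteger ^ t} := by
    rw [Ideal.dvd_iff_le, Ideal.span_singleton_le_iff_mem]
    exact htP
  rcases hCP1 m n K L _ hz' hn hmn P hdvd hprin with h | h
  · exact absurd h hP.ne_top
  · refine hPRC m K _ hz' ?_
    have hne : (2 - (IsCyclotomicExtension.zeta_spec (2 ^ (m + 1)) ℚ K).toInteger ^ t : 𝓞 K) ≠ 0 := by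
      intro h0
      rw [h0, Ideal.span_singleton_eq_bot.mpr rfl] at h
      rw [h, Ideal.mem_bot] at hF
      have h2 : fer m = 0 := by exact_mod_cast hF
      exact absurd h2 (Nat.succ_ne_zero _)
    rw [← Ideal.span_singleton_prime hne, ← h]
    exact hP

end Pool.Agent.UFG
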