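import Pool.Agent.helper76.UFG.Spec

set_option autoImplicit false

namespace Pool.Agent.UFG

open Finset NumberField nonZeroDivisors Pool.Agent.UF

lemma UQF_aux {R : Type} [CommRing R] [IsDomain R] (g : Multiset R) :
    (∀ a ∈ g, Prime a) → ∀ s : Multiset R, (∀ a ∈ s, Irreducible a) → Associated g.prod s.prod →
      ∀ a ∈ s, Prime a := by
  classical
  induction g using Multiset.induction with
  | empty =>
    intro _ s hs h a ha
    rw [Multiset.prod_zero] at h
    have h1 : IsUnit s.prod := (associated_one_iff_isUnit.mp h.symm)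
    exact absurd (isUnit_of_dvd_unit (Multiset.dvd_prod ha) h1) (hs a ha).not_isUnit
  | cons p g ih =>
    intro hg s hs h a ha
    have hp : Prime p := hg p (Multiset.mem_cons_self p g)
    have hdvd : p ∣ s.prod := by
      rw [← h.dvd_iff_dvd_right, Multiset.prod_cons]
      exact dvd_mul_right _ _
    obtain ⟨b, hb, hpb⟩ := hp.exists_mem_multiset_dvd hdvd
    have hassoc : Associated p b := hp.irreducible.associated_of_dvd (hs b hb) hpb
    have hsplit : s = b ::ₘ s.erase b := (Multiset.cons_erase hb).symm
    have h2 : Associated g.prod (s.erase b).prod := by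
      rw [hsplit, Multiset.prod_cons, Multiset.prod_cons] at h
      exact h.of_mul_left hassoc hp.ne_zero
    rw [hsplit] at ha
    rcases Multiset.mem_cons.mp ha with h3 | h3
    · rw [h3]
      exact hassoc.prime hp
    · exact ih (fun c hc => hg c (Multiset.mem_cons_of_mem hc)) (s.erase b)
        (fun c hc => hs c (Multiset.mem_of_mem_erase hc)) h2 a h3

theorem UQF : UQF_stmt := by
  intro R _ _ x g hg hgx s t hs ht hsx htx
  have h1 := UQF_aux g hg s hs (hgx.trans hsx.symm)
  have h2 := UQF_aux g hg t ht (hgx.trans htx.symm)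
  exact prime_factors_unique h1 h2 (hsx.trans htx.symm)

end Pool.Agent.UFG
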